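import Pool.Agent.UCH.StmtsE

/-!
# Squad UCH, row GLS: the stabiliser acts on the germ and on the lc places
-/

set_option autoImplicit false

namespace Pool.Agent.UCH.H45G

open Pool.Agent.LCI Pool.Agent.DFO Pool.Agent.QMK Pool.Agent.CNL

theorem gls : GlsStmt := by
  intro k R K kb S K' _ _ _ _ _ _ _ _ _ _ _ _ _ _ _ _ _ _ _ _ _ _ _ _ _ n F F' l g m M a a' c φ v'
    hb hφ hM hS hS' hT1 hT2 σ hσ
  have hinjσ : ∀ x : K', x ≠ 0 → σ x ≠ 0 := fun x hx h =>
    hx ((map_eq_zero_iff σ σ.injective).mp h)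
  have hinjS : Function.Injective (algebraMap S K') := IsFractionRing.injective S K'
  have hc : ∀ c : kb, ∃ d : kb, algebraMap kb K' d = σ (algebraMap kb K' c) := by
    intro c
    have h1 : IsIntegral k c := (hb.algk.isAlgebraic c).isIntegral
    have h2 : IsIntegral k (algebraMap kb K' c) := h1.map (IsScalarTower.toAlgHom k kb K')
    have h3 : IsIntegral k (σ (algebraMap kb K' c)) :=
      h2.map (σ.restrictScalars k : K' ≃ₐ[k] K')
    have h4 : IsIntegral kb (σ (algebraMap kb K' c)) := h3.tower_top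
    obtain ⟨d, hd⟩ := minpoly.mem_range_of_degree_eq_one kb (σ (algebraMap kb K' c))
      (IsAlgClosed.degree_eq_one_of_irreducible kb (minpoly.irreducible h4))
    exact ⟨d, hd⟩
  have hR1 : ∀ p ∈ R1 k R K kb K', σ p ∈ R1 k R K kb K' := by
    intro p hp
    unfold R1 at hp ⊢
    induction hp using Algebra.adjoin_induction with
    | mem x hx =>
      obtain ⟨f, rfl⟩ := hx
      have h1 : σ (algebraMap K K' (algebraMap R K f)) = algebraMap K K' (algebraMap R K f) :=
        σ.commutes _
      show σ (algebraMap K K' (algebraMap R K f)) ∈ _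
      rw [h1]
      exact Algebra.subset_adjoin ⟨f, rfl⟩
    | algebraMap r =>
      obtain ⟨d, hd⟩ := hc r
      rw [← hd]
      exact Subalgebra.algebraMap_mem _ d
    | add x y _ _ ihx ihy =>
      rw [map_add]
      exact Subalgebra.add_mem _ ihx ihy
    | mul x y _ _ ihx ihy =>
      rw [map_mul]
      exact Subalgebra.mul_mem _ ihx ihy
  have hσS : ∀ x : S, ∃ y : S, algebraMap S K' y = σ (algebraMap S K' x) := by
    intro x
    obtain ⟨p, hp, s, hs, hs0, hvs, hx⟩ := hS x
    obtain ⟨y, hy⟩ := hS' (σ p) (hR1 p hp) (σ s) (hR1 s hs) (hinjσ s hs0) (by rw [hσ s hs0, hvs])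
    exact ⟨y, by rw [hy, hx, map_div₀]⟩
  have hσM : ∀ x ∈ M, ∃ y ∈ M, algebraMap S K' y = σ (algebraMap S K' x) := by
    intro x hx
    rw [hM, Ideal.map] at hx
    rw [hM, Ideal.map]
    induction hx using Submodule.span_induction with
    | mem x hx =>
      refine ⟨x, Ideal.subset_span hx, ?_⟩
      obtain ⟨r, -, rfl⟩ := hx
      rw [hφ r]
      exact (σ.commutes _).symm
    | zero => exact ⟨0, Submodule.zero_mem _, by rw [map_zero, map_zero]⟩
    | add x y _ _ ihx ihy =>
      obtain ⟨x', hx', ex⟩ := ihx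
      obtain ⟨y', hy', ey⟩ := ihy
      exact ⟨x' + y', Submodule.add_mem _ hx' hy', by rw [map_add, ex, ey, map_add, map_add]⟩
    | smul r x _ ihx =>
      obtain ⟨x', hx', ex⟩ := ihx
      obtain ⟨r', er⟩ := hσS r
      exact ⟨r' * x', Ideal.mul_mem_left _ _ hx', by
        rw [map_mul, er, ex, smul_eq_mul, map_mul, map_mul]⟩
  refine ⟨hσS, ?_⟩
  intro w₁ w₂ hw hlc hsv
  -- the restriction to `K`
  have hinjK : ∀ x : K, x ≠ 0 → algebraMap K K' x ≠ 0 := fun x hx =>
    (map_ne_zero (algebraMap K K')).2 hx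
  let w : RVal k K :=
    { v := fun x => w₁.v (algebraMap K K' x)
      mul' := fun x y hx hy => by
        rw [map_mul]
        exact w₁.mul' _ _ (hinjK x hx) (hinjK y hy)
      add' := fun x y hx hy hxy => by
        have h := w₁.add' (algebraMap K K' x) (algebraMap K K' y) (hinjK x hx) (hinjK y hy)
          (by rw [← map_add]; exact hinjK _ hxy)
        rw [← map_add] at h
        exact h
      const' := fun c hc' => by
        have h1 : algebraMap K K' (algebraMap k K c) = algebraMap kb K' (algebraMap k kb c) := by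
          rw [← IsScalarTower.algebraMap_apply, ← IsScalarTower.algebraMap_apply]
        rw [h1]
        exact w₁.const' _ ((map_ne_zero (algebraMap k kb)).2 hc') }
  have hE1 : Ext w w₁ := fun x _ => rfl
  have hE2 : Ext w w₂ := by
    intro x hx
    rw [hw _ (hinjK x hx), σ.commutes]
  have hcen1 : Centered M w₁ := hlc.1
  have hcen2 : Centered M w₂ := by
    refine ⟨fun f hf => ?_, fun f hf hf0 => ?_⟩
    · have hf' : algebraMap S K' f ≠ 0 := fun h => hf (hinjS (by rw [h, map_zero]))
      obtain ⟨y, hy⟩ := hσS f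
      rw [hw _ hf', ← hy]
      refine hcen1.1 y fun h0 => ?_
      rw [h0, map_zero] at hy
      exact hinjσ _ hf' hy.symm
    · have hf' : algebraMap S K' f ≠ 0 := fun h => hf0 (hinjS (by rw [h, map_zero]))
      obtain ⟨y, hyM, hy⟩ := hσM f hf
      rw [hw _ hf', ← hy]
      refine hcen1.2 y hyM fun h0 => ?_
      rw [h0, map_zero] at hy
      exact hinjσ _ hf' hy.symm
  have hs1 := (hT1 w w₁ hE1 hcen1).2
  have hs2 := (hT1 w w₂ hE2 hcen2).2
  exact ⟨(hT2 w w₂ hE2 hcen2).1 ((hT2 w w₁ hE1 hcen1).2 hlc), by rw [hs2, ← hs1, hsv]⟩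

end Pool.Agent.UCH.H45G
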