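import Pool.Agent.UCH.StmtsC
import Pool.Agent.UCH.StmtsP
import Pool.Agent.UCH.StmtsU
import Pool.Agent.UCH.StmtsR
import Pool.Agent.Helper84_UCH.LPC

set_option autoImplicit false

/-!
# UCH, row SGV: unique segments
-/

namespace Pool.Agent.UCH.H45

open Pool.Agent.LCI Pool.Agent.DFO Pool.Agent.QMA
open scoped BigOperators

/-- Common denominators. -/
theorem denom {k R K : Type} [Field k] [CommRing R] [IsDomain R] [Algebra k R] [Field K]
    [Algebra k K] [Algebra R K] [IsScalarTower k R K] [IsFractionRing R K]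
    (J : Submodule k K) (hJ : FiniteDimensional k J) (g : K) :
    ∃ (d G : R) (W : Submodule k R), d ≠ 0 ∧ FiniteDimensional k W ∧
      algebraMap R K G = algebraMap R K d * g ∧
      ∀ x ∈ J, ∃ f ∈ W, algebraMap R K f = algebraMap R K d * x := by
  classical
  obtain ⟨S, hS⟩ := (Submodule.fg_iff_finiteDimensional J).2 hJ
  obtain ⟨b, hb⟩ := IsLocalization.exist_integer_multiples_of_finset (nonZeroDivisors R)
    (insert g S : Finset K)
  have hb' : ∀ x ∈ (insert g S : Finset K), ∃ r : R,
      algebraMap R K r = algebraMap R K (b : R) * x := by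
    intro x hx
    obtain ⟨r, hr⟩ := hb x hx
    refine ⟨r, ?_⟩
    rw [hr, Algebra.smul_def]
  choose! r hr using hb'
  refine ⟨b, r g, Submodule.span k ((S.image r : Finset R) : Set R), nonZeroDivisors.ne_zero b.2,
    FiniteDimensional.span_of_finite k (Finset.finite_toSet _),
    hr g (Finset.mem_insert_self _ _), ?_⟩
  intro x hx
  rw [← hS] at hx
  induction hx using Submodule.span_induction with
  | mem x hx =>
    refine ⟨r x, Submodule.subset_span ?_, hr x (Finset.mem_insert_of_mem hx)⟩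
    exact Finset.mem_coe.2 (Finset.mem_image_of_mem r hx)
  | zero => exact ⟨0, Submodule.zero_mem _, by rw [map_zero, mul_zero]⟩
  | add x y _ _ ihx ihy =>
    obtain ⟨f, hf, hf'⟩ := ihx
    obtain ⟨f', hf2, hf2'⟩ := ihy
    exact ⟨f + f', Submodule.add_mem _ hf hf2, by rw [map_add, hf', hf2', mul_add]⟩
  | smul c x _ ihx =>
    obtain ⟨f, hf, hf'⟩ := ihx
    refine ⟨c • f, Submodule.smul_mem _ c hf, ?_⟩
    rw [Algebra.smul_def c f, map_mul, hf', Algebra.smul_def c x, ← IsScalarTower.algebraMap_apply]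
    ring

theorem sgv (hUne : UneStmt) (hPtv : PtvStmt) (hLcw : LcwStmt) (hRin : RinStmt) (hCnv : CnvStmt)
    (hAcp : AcpStmt) (hJfd : JfdStmt) : SgvStmt := by
  classical
  intro k R K _ _ _ _ _ _ _ _ _ _ _ n F l g m a c hl hg hR hklt hlct u hu hua
  -- `c` is positive
  have hpos : ∃ f : R, f ≠ 0 ∧ 0 < u.v (algebraMap R K f) := by
    by_contra hcon
    push Not at hcon
    have := Pool.Agent.UCH.H84.seq_zero a u (fun f hf => le_antisymm (hcon f hf) (hu.1.1 f hf))
    rw [hua] at this
    exact one_ne_zero this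
  have hc : 0 < c := by
    have h1 := hklt u hu.1.1 hpos
    rw [hu.2, hua, mul_one] at h1
    exact_mod_cast h1
  set φ : R →ₗ[k] K := (IsScalarTower.toAlgHom k R K).toLinearMap with hφ
  have hφa : ∀ x : R, φ x = algebraMap R K x := fun x => rfl
  have hinj : ∀ x : R, x ≠ 0 → algebraMap R K x ≠ 0 := by
    intro x hx h
    exact hx ((map_eq_zero_iff _ (IsFractionRing.injective R K)).1 h)
  obtain ⟨E, hE, hch⟩ := hUne k R K n F l g m a c hl hg hR hklt hlct
  have hfE : FiniteDimensional k ↥(E.map φ) := by infer_instance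
  obtain ⟨J, hJ, hjac⟩ := hJfd k K n F (E.map φ)
  obtain ⟨d, G, W, hd, hW, hG, hWJ⟩ := denom (R := R) J hJ g
  have hfs : FiniteDimensional k ↥(Submodule.span k ({d, G} : Set R)) :=
    FiniteDimensional.span_of_finite k (Set.toFinite _)
  set V : Submodule k R := (E ⊔ Submodule.span k ({d, G} : Set R)) ⊔ W with hV
  have hfV : FiniteDimensional k ↥V := by infer_instance
  have hEV : E ≤ V := le_trans le_sup_left le_sup_left
  have hWV : W ≤ V := le_sup_right
  have hdV : d ∈ V := Submodule.mem_sup_left (Submodule.mem_sup_right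
    (Submodule.subset_span (by simp)))
  have hGV : G ∈ V := Submodule.mem_sup_left (Submodule.mem_sup_right
    (Submodule.subset_span (by simp)))
  have hfg : FiniteDimensional k ↥(Submodule.span k ({g} : Set K)) :=
    FiniteDimensional.span_of_finite k (Set.toFinite _)
  set VK : Submodule k K := (V.map φ ⊔ Submodule.span k ({g} : Set K)) with hVK
  have hfVK : FiniteDimensional k ↥VK := by infer_instance
  obtain ⟨X, δ, hδ, h1⟩ := hPtv k R K n F l g m a c (E.map φ) VK u hl hg hc.le hR hlct hu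
  refine ⟨V, hfV, X, δ, hδ, ?_⟩
  intro v hv hva hnear s hs0 hs1
  obtain ⟨e, he, hmon⟩ := hch v hv
  obtain ⟨hmu, w, hw0, hw1, hwt, hcont, hlin, hwjac, hconc, huniq⟩ := h1 v hv hnear
    (fun i => algebraMap R K (e i)) (fun i => ⟨e i, he i, hφa (e i)⟩) hmon
  have hgVK : g ∈ VK := Submodule.mem_sup_right (Submodule.subset_span rfl)
  refine ⟨⟨w s, ?_⟩, ?_⟩
  · have h2 := hLcw k R K n F l g m a c u v (w s) (fun i => algebraMap R K (e i)) s hl hg hc hR
      hlct hu hv hua hva hs0 hs1 hmu hmon (hwt s hs0 hs1) (hwjac s hs0 hs1)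
      (hlin g hgVK hg s hs0 hs1) (fun f hf => hconc f hf s hs0 hs1)
    refine ⟨h2.1, h2.2, fun f hf => hconc f hf s hs0 hs1, fun f hf hf0 => ?_⟩
    exact hlin _ (Submodule.mem_sup_left ⟨f, hf, hφa f⟩) (hinj f hf0) s hs0 hs1
  · have key : ∀ ψ : RVal k K, Sgm F l g a c V u v s ψ → ∀ f : K, f ≠ 0 → ψ.v f = (w s).v f := by
      intro ψ hψ
      obtain ⟨hψ1, hψ2, hψ3, hψ4⟩ := hψ
      set z : Fin n → K := fun i => algebraMap R K (e i) with hz
      have hlu : logDisc F l g u = ((c : ℝ) : EReal) := by rw [hu.2, hua, mul_one]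
      have hlv : logDisc F l g v = ((c : ℝ) : EReal) := by rw [hv.2, hva, mul_one]
      have hlψ : logDisc F l g ψ = ((c : ℝ) : EReal) := by rw [hψ1.2, hψ2, mul_one]
      obtain ⟨hjz, hsu, -⟩ := hAcp k R K n F l g m c u z hR hlu hmu
      obtain ⟨-, hsv, -⟩ := hAcp k R K n F l g m c v z hR hlv hmon
      have he0 : ∀ i, e i ≠ 0 := by
        intro i h0
        apply hmon.1 i
        show algebraMap R K (e i) = 0
        rw [h0, map_zero]
      have hzi : ∀ i, ψ.v (z i) = (1 - s) * u.v (z i) + s * v.v (z i) := fun i =>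
        hψ4 (e i) (hEV (he i)) (he0 i)
      have hdd := hψ4 d hdV hd
      have hdK : algebraMap R K d ≠ 0 := hinj d hd
      -- elements of `J` and `g`
      have hmulx : ∀ (x : K) (f : R), x ≠ 0 → f ∈ V → algebraMap R K f = algebraMap R K d * x →
          ψ.v x = (1 - s) * u.v x + s * v.v x := by
        intro x f hx hf hfx
        have hf0 : f ≠ 0 := by
          intro h0
          rw [h0, map_zero] at hfx
          exact (mul_ne_zero hdK hx) hfx.symm
        have h3 := hψ4 f hf hf0
        rw [hfx, ψ.mul' _ _ hdK hx, u.mul' _ _ hdK hx, v.mul' _ _ hdK hx, hdd] at h3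
        linarith
      have hψj : ψ.v (F.jac z) = (1 - s) * u.v (F.jac z) + s * v.v (F.jac z) := by
        obtain ⟨f, hf, hf'⟩ := hWJ (F.jac z) (hjac z (fun i => ⟨e i, he i, hφa (e i)⟩))
        exact hmulx _ f hjz (hWV hf) hf'
      have hψg : ψ.v g = (1 - s) * u.v g + s * v.v g := hmulx g G hg hGV hG
      have hsum : (∑ i, ψ.v (z i)) - ψ.v (F.jac z) + ψ.v g / l = c := by
        have h4 : (∑ i, ψ.v (z i)) = (1 - s) * (∑ i, u.v (z i)) + s * (∑ i, v.v (z i)) := by
          rw [Finset.mul_sum, Finset.mul_sum, ← Finset.sum_add_distrib]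
          exact Finset.sum_congr rfl fun i _ => hzi i
        rw [h4, hψj, hψg]
        have h5 : (1 - s) * ((∑ i, u.v (z i)) - u.v (F.jac z) + u.v g / l) +
            s * ((∑ i, v.v (z i)) - v.v (F.jac z) + v.v g / l) = c := by
          rw [hsu, hsv]
          ring
        rw [← h5]
        ring
      obtain ⟨e', he', hmon'⟩ := hch ψ hψ1
      obtain ⟨-, hsψ, hdsc⟩ := hAcp k R K n F l g m c ψ (fun i => algebraMap R K (e' i)) hR hlψ hmon'
      have hmz : IsMonomial ψ z := by
        refine hCnv k K n F ψ (fun i => algebraMap R K (e' i)) z hmon' ?_ hjz ?_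
        · have h6 : (∑ i, ψ.v (algebraMap R K (e' i))) -
              ψ.v (F.jac fun i => algebraMap R K (e' i)) = c - ψ.v g / l := by linarith
          rw [h6]
          exact hdsc
        · linarith
      have hWt : Wt ψ z (lin (fun i => u.v (z i)) (fun i => v.v (z i)) s) := ⟨hmz, fun i => hzi i⟩
      exact huniq s hs0 hs1 ψ hWt (fun f hf hig => hRin k R K n e u v ψ s hψ3 f hf hig)
    intro ψ ψ' h h' f hf
    rw [key ψ h f hf, key ψ' h' f hf]

end Pool.Agent.UCH.H45
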