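import Pool.Agent.UCH.StmtsC
import Pool.Agent.Helper84_UCH.LPC

/-!
# UCH, row USG: unique segments in the space of the lc places, on the level of functions
-/

set_option autoImplicit false

namespace Pool.Agent.UCH.H45U

open Pool.Agent.LCI Pool.Agent.DFO Pool.Agent.QMA Pool.Agent.UCH
open scoped BigOperators

/-- **USG**: unique segments.  For `φ` near `φ₀` and `0 ≤ s ≤ 1` there is exactly one `ψ` in the space of the
lc places with `v(a.) = 1` which is at least `(1 - s) φ₀ + s φ` on `R`, with equality on `V`. -/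
def UsgStmt : Prop :=
  ∀ (k R K : Type) [Field k] [IsAlgClosed k] [CharZero k] [CommRing R] [IsDomain R]
    [Algebra k R] [Field K] [Algebra k K] [Algebra R K] [IsScalarTower k R K]
    [IsFractionRing R K] (n : ℕ) (F : Frame k K n) (l : ℕ) (g : K) (m : Ideal R)
    (a : GSeq m) (c : ℝ), 1 ≤ l → g ≠ 0 → IsGerm k m → Pool.Agent.CNL.IsKlt R F l g →
    IsLct F l g a c → ∀ (φ₀ : ↥(Pool.Agent.CNL.LCS F l g a c)),
      ∃ V : Submodule k R, FiniteDimensional k V ∧ ∃ N ∈ nhds φ₀, ∀ φ ∈ N, ∀ s : ℝ,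
        0 ≤ s → s ≤ 1 → ∃! ψ : ↥(Pool.Agent.CNL.LCS F l g a c),
          (∀ f : R, (1 - s) * (φ₀ : R → ℝ) f + s * (φ : R → ℝ) f ≤ (ψ : R → ℝ) f) ∧
          ∀ f ∈ V, (ψ : R → ℝ) f = (1 - s) * (φ₀ : R → ℝ) f + s * (φ : R → ℝ) f

theorem usg (sgv : SgvStmt) : UsgStmt := by
  classical
  intro k R K _ _ _ _ _ _ _ _ _ _ _ n F l g m a c hl hg hgerm hklt hlct φ₀
  have hval : ∀ φ : ↥(Pool.Agent.CNL.LCS F l g a c), ∃ v : RVal k K,
      IsLcPlace F l g a c v ∧ seqVal v a = 1 ∧ (φ : R → ℝ) 0 = 0 ∧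
        ∀ f : R, f ≠ 0 → (φ : R → ℝ) f = v.v (algebraMap R K f) := fun φ => φ.2
  obtain ⟨u, hu, hu1, hφ0, hφ⟩ := hval φ₀
  obtain ⟨V, hV, X, δ, hδ, hseg⟩ := sgv k R K n F l g m a c hl hg hgerm hklt hlct u hu hu1
  refine ⟨V, hV, _, Pool.Agent.UCH.H84.nhds_fin (S := Pool.Agent.CNL.LCS F l g a c) φ₀ X δ hδ, ?_⟩
  intro φ hφN s hs0 hs1
  obtain ⟨v, hv, hv1, hv0, hvf⟩ := hval φ
  have hnear : ∀ x ∈ X, x ≠ 0 → |v.v (algebraMap R K x) - u.v (algebraMap R K x)| < δ := by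
    intro x hx hx0
    have h1 : |(φ : R → ℝ) x - (φ₀ : R → ℝ) x| < δ := hφN x hx
    rw [hvf x hx0, hφ x hx0] at h1
    exact h1
  obtain ⟨⟨w, hw, hw1, hwl, hwe⟩, huniq⟩ := hseg v hv hv1 hnear s hs0 hs1
  have hsgm : ∀ (ψ : ↥(Pool.Agent.CNL.LCS F l g a c)) (w : RVal k K),
      IsLcPlace F l g a c w → seqVal w a = 1 →
      (∀ f : R, f ≠ 0 → (ψ : R → ℝ) f = w.v (algebraMap R K f)) →
      ((∀ f : R, (1 - s) * (φ₀ : R → ℝ) f + s * (φ : R → ℝ) f ≤ (ψ : R → ℝ) f) ∧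
        ∀ f ∈ V, (ψ : R → ℝ) f = (1 - s) * (φ₀ : R → ℝ) f + s * (φ : R → ℝ) f) →
      Sgm F l g a c V u v s w := by
    intro ψ w hw hw1 hw' h
    refine ⟨hw, hw1, ?_, ?_⟩
    · intro f hf
      have h1 := h.1 f
      rw [hφ f hf, hvf f hf, hw' f hf] at h1
      exact h1
    · intro f hfV hf
      have h1 := h.2 f hfV
      rw [hφ f hf, hvf f hf, hw' f hf] at h1
      exact h1
  refine ⟨⟨fun f => if f = 0 then 0 else w.v (algebraMap R K f), w, hw, hw1, if_pos rfl,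
    fun f hf => if_neg hf⟩, ⟨fun f => ?_, fun f hfV => ?_⟩, ?_⟩
  · by_cases hf : f = 0
    · simp [hf, hφ0, hv0]
    · simp only [hf, if_false]
      rw [hφ f hf, hvf f hf]
      exact hwl f hf
  · by_cases hf : f = 0
    · simp [hf, hφ0, hv0]
    · simp only [hf, if_false]
      rw [hφ f hf, hvf f hf]
      exact hwe f hfV hf
  · intro ψ' h'
    obtain ⟨w', hw', hw1', hw0', hwf'⟩ := hval ψ'
    have h2 := huniq w w' ⟨hw, hw1, hwl, hwe⟩ (hsgm ψ' w' hw' hw1' hwf' h')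
    apply Subtype.ext
    funext f
    by_cases hf : f = 0
    · rw [hf, hw0']
      simp
    · rw [hwf' f hf]
      simp only [hf, if_false]
      exact (h2 _ (fun h0 => hf ((IsFractionRing.injective R K) (by rw [h0, map_zero])))).symm

end Pool.Agent.UCH.H45U
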